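import Pool.Agent.MHP.StmtsC

/-!
# Squad MHP, row CMB: boolean operations
-/

set_option autoImplicit false

namespace Pool.Agent.MHP.H51

open Pool.Agent.MHP

theorem cmb : CmbStmt := by
  refine ⟨fun a b c φ h => ?_, fun a b c φ ψ h1 h2 => ?_⟩
  · obtain ⟨Q, hQ, τ, R, hR⟩ := h
    refine ⟨Q, hQ, τ, fun p q => ¬ R p q, fun K A x X F hF => ?_⟩
    have h := hR K A x X F hF
    show ¬ Sat (gl K A) φ x X F ↔ _
    rw [h]
  · obtain ⟨Q, hQ, τ, R, hR⟩ := h1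
    obtain ⟨Q', hQ', τ', R', hR'⟩ := h2
    refine ⟨Q × Q', inferInstance, fun A v => (τ A v, τ' A v),
      fun p q => R p.1 q.1 ∧ R' p.2 q.2, fun K A x X F hF => ?_⟩
    have h3 := hR K A x X F hF
    have h4 := hR' K A x X F hF
    show Sat (gl K A) φ x X F ∧ Sat (gl K A) ψ x X F ↔ _
    rw [h3, h4]

end Pool.Agent.MHP.H51
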