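import Pool.Agent.MHP.Stmts
import Pool.Agent.Helper60_MHP.SPC

/-!
# MHP, row SPK: a graph is sparse and bipartite when its components are
-/

set_option autoImplicit false

open scoped Classical

namespace Pool.Agent.MHP.H51

open Pool.Agent.HMT Pool.Agent.MHP

/-- a set in one component, seen in the component -/
theorem spk_piece {V : Type} [Finite V] (G : SimpleGraph V) (C A : Set V) (hA : A ⊆ C) :
    Nat.card ({u | u.1 ∈ A} : Set C) = A.ncard ∧
    (Pool.Agent.MHP.H60.inn G A).ncard =
      Nat.card ((G.induce C).induce {u | u.1 ∈ A}).edgeSet := by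
  constructor
  · have h1 : A = (Subtype.val : C → V) '' {u | u.1 ∈ A} := by
      ext a
      constructor
      · intro ha
        exact ⟨⟨a, hA ha⟩, ha, rfl⟩
      · rintro ⟨u, hu, rfl⟩
        exact hu
    rw [Nat.card_coe_set_eq]
    conv_rhs => rw [h1]
    rw [Set.ncard_image_of_injective _ Subtype.val_injective]
  · rw [Pool.Agent.MHP.H60.card_ind]
    have hinj : Function.Injective (Sym2.map (Subtype.val : C → V)) :=
      Sym2.map.injective Subtype.val_injective
    rw [← Set.ncard_image_of_injective _ hinj]
    congr 1
    ext e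
    constructor
    · rintro ⟨he, hv⟩
      induction e using Sym2.ind with
      | _ a b =>
        have ha := hv a (Sym2.mem_mk_left a b)
        have hb := hv b (Sym2.mem_mk_right a b)
        refine ⟨s(⟨a, hA ha⟩, ⟨b, hA hb⟩), ⟨?_, ?_⟩, ?_⟩
        · rw [SimpleGraph.mem_edgeSet] at he ⊢
          exact he
        · intro v hv'
          rcases Sym2.mem_iff.1 hv' with rfl | rfl
          · exact ha
          · exact hb
        · rw [Sym2.map_mk]
    · rintro ⟨e', ⟨he, hv⟩, rfl⟩
      induction e' using Sym2.ind with
      | _ a b =>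
        rw [SimpleGraph.mem_edgeSet] at he
        refine ⟨?_, ?_⟩
        · rw [Sym2.map_mk, SimpleGraph.mem_edgeSet]
          exact he
        · intro v hv'
          rw [Sym2.map_mk] at hv'
          rcases Sym2.mem_iff.1 hv' with rfl | rfl
          · exact hv a (Sym2.mem_mk_left a b)
          · exact hv b (Sym2.mem_mk_right a b)

/-- the edges in `X` split along a union of components -/
theorem spk_split {V : Type} [Finite V] (G : SimpleGraph V) (X : Set V) (x : V) :
    (Pool.Agent.MHP.H60.inn G X).ncard =
      (Pool.Agent.MHP.H60.inn G {u | u ∈ X ∧ G.Reachable x u}).ncard +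
      (Pool.Agent.MHP.H60.inn G (X \ {u | u ∈ X ∧ G.Reachable x u})).ncard := by
  rw [← Set.ncard_union_eq ?_ (Set.toFinite _) (Set.toFinite _)]
  · congr 1
    ext e
    constructor
    · rintro ⟨he, hv⟩
      induction e using Sym2.ind with
      | _ a b =>
        rw [SimpleGraph.mem_edgeSet] at he
        have ha := hv a (Sym2.mem_mk_left a b)
        have hb := hv b (Sym2.mem_mk_right a b)
        by_cases haA : G.Reachable x a
        · left
          refine ⟨he, ?_⟩
          intro v hv'
          rcases Sym2.mem_iff.1 hv' with rfl | rfl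
          · exact ⟨ha, haA⟩
          · exact ⟨hb, haA.trans he.reachable⟩
        · right
          refine ⟨he, ?_⟩
          intro v hv'
          rcases Sym2.mem_iff.1 hv' with rfl | rfl
          · exact ⟨ha, fun h => haA h.2⟩
          · exact ⟨hb, fun h => haA (h.2.trans he.symm.reachable)⟩
    · rintro (⟨he, hv⟩ | ⟨he, hv⟩)
      · exact ⟨he, fun v h => (hv v h).1⟩
      · exact ⟨he, fun v h => (hv v h).1⟩
  · rw [Set.disjoint_left]
    rintro e ⟨_, hv⟩ ⟨_, hv'⟩
    induction e using Sym2.ind with
    | _ a b => exact (hv' a (Sym2.mem_mk_left a b)).2 (hv a (Sym2.mem_mk_left a b))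

theorem spk : SpkStmt := by
  intro g V _ G h
  by_cases hg : g = 0
  · exact Or.inl hg
  right
  have hc : ∀ v, (G.induce {w | G.Reachable v w}).Colorable 2 := fun v =>
    ((h v).resolve_left hg).1
  have hs : ∀ v, ∀ X : Set {w | G.Reachable v w}, X.Nonempty →
      g * Nat.card ((G.induce {w | G.Reachable v w}).induce X).edgeSet ≤
        (g + 1) * (Nat.card X - 1) := fun v => ((h v).resolve_left hg).2
  refine ⟨?_, ?_⟩
  · have c : ∀ v, (G.induce {w | G.Reachable v w}).Coloring (Fin 2) := fun v => (hc v).some
    have hval : ∀ r s : V, r = s → ∀ (a b : V) (ha : G.Reachable r a) (hb : G.Reachable s b),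
        G.Adj a b → c r ⟨a, ha⟩ ≠ c s ⟨b, hb⟩ := by
      rintro r s rfl a b ha hb hab
      exact (c r).valid hab
    have hrep : ∀ w, G.Reachable (G.connectedComponentMk w).out w := by
      intro w
      apply SimpleGraph.ConnectedComponent.exact
      exact Quot.out_eq _
    refine ⟨SimpleGraph.Coloring.mk
      (fun w => c (G.connectedComponentMk w).out ⟨w, hrep w⟩) ?_⟩
    intro a b hab
    apply hval _ _ _ _ _ _ _ hab
    rw [SimpleGraph.ConnectedComponent.sound hab.reachable]
  · intro X
    induction hn : X.ncard using Nat.strong_induction_on generalizing X with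
    | _ n ih =>
      rintro ⟨x, hx⟩
      have hsp := spk_split G X x
      obtain ⟨A, hA⟩ : ∃ A : Set V, A = {u | u ∈ X ∧ G.Reachable x u} := ⟨_, rfl⟩
      rw [← hA] at hsp
      have hAX : A ⊆ X := by
        rw [hA]
        exact fun u hu => hu.1
      have hxA : x ∈ A := by
        rw [hA]
        exact ⟨hx, SimpleGraph.Reachable.refl _⟩
      have hAC : A ⊆ {w | G.Reachable x w} := by
        rw [hA]
        exact fun u hu => hu.2
      obtain ⟨hp1, hp2⟩ := spk_piece G {w | G.Reachable x w} A hAC
      have h2 := hs x {u | u.1 ∈ A} ⟨⟨x, SimpleGraph.Reachable.refl _⟩, hxA⟩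
      rw [← hp2, hp1] at h2
      have hA1 : 1 ≤ A.ncard := by
        rw [Nat.one_le_iff_ne_zero]
        intro h0
        rw [Set.ncard_eq_zero (Set.toFinite _)] at h0
        rw [h0] at hxA
        exact hxA
      have hcard : X.ncard = A.ncard + (X \ A).ncard := by
        have := Set.ncard_sdiff_add_ncard_of_subset hAX (Set.toFinite X)
        omega
      rw [Pool.Agent.MHP.H60.card_ind, Nat.card_coe_set_eq, hsp]
      rcases (X \ A).eq_empty_or_nonempty with h0 | h0
      · rw [h0] at hcard ⊢
        have e1 : (Pool.Agent.MHP.H60.inn G (∅ : Set V)).ncard = 0 := by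
          have : Pool.Agent.MHP.H60.inn G (∅ : Set V) = ∅ := by
            ext e
            constructor
            · rintro ⟨_, h2⟩
              induction e using Sym2.ind with
              | _ a b => exact h2 a (Sym2.mem_mk_left a b)
            · intro he
              exact absurd he (Set.notMem_empty _)
          rw [this, Set.ncard_empty]
        rw [Set.ncard_empty] at hcard
        rw [e1, hcard]
        simpa using h2
      · have h1 := ih (X \ A).ncard (by omega) (X \ A) rfl h0
        rw [Pool.Agent.MHP.H60.card_ind, Nat.card_coe_set_eq] at h1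
        have hB1 : 1 ≤ (X \ A).ncard := by
          rw [Nat.one_le_iff_ne_zero]
          intro h3
          rw [Set.ncard_eq_zero (Set.toFinite _)] at h3
          rw [h3] at h0
          exact Set.not_nonempty_empty h0
        rw [Nat.mul_add]
        refine (Nat.add_le_add h2 h1).trans ?_
        rw [← Nat.mul_add]
        apply Nat.mul_le_mul_left
        omega

end Pool.Agent.MHP.H51
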